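import Pool.Agent.SInt.Final

open Pool.Agent.DEH

namespace Pool.Agent.Results.MP_e9eb55_nt.AlmostAllShort

/-- The diagonal Moebius-twisted Elliott-Halberstam estimate holds, with every level
`Q ≤ N exp(-(log N)^ε)` and every power of the logarithm, for all `N` outside one set `B` which has
at most `H (log X)^(-A)` elements in every interval `(X, X + H]` with `X^(1/2+ε) ≤ H ≤ X`. -/
theorem result : ∃ B : Set ℕ,
    (∀ ε : ℝ, 0 < ε → ∀ A : ℕ, ∃ X₀ : ℕ, ∀ X : ℕ, X₀ ≤ X → ∀ H : ℕ,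
      (X : ℝ) ^ (1 / 2 + ε) ≤ H → H ≤ X →
        (({N : ℕ | N ∈ B ∧ X < N ∧ N ≤ X + H}).ncard : ℝ) ≤ H / Real.log X ^ A) ∧
    ∀ ε : ℝ, 0 < ε → ∀ A : ℕ, ∃ N₀ : ℕ, ∀ N : ℕ, N₀ ≤ N → N ∉ B → ∀ Q : ℝ,
      Q ≤ N * Real.exp (-(Real.log N) ^ ε) →
        D g1 N Q ≤ N / Real.log N ^ A ∧ D g2 N Q ≤ N / Real.log N ^ A :=
  Pool.Agent.SInt.final

end Pool.Agent.Results.MP_e9eb55_nt.AlmostAllShort
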