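import Pool.Agent.MVD.PFinal

open Pool.Agent.DEH

namespace Pool.Agent.Results.MP_e9eb55_nt.PowerSaving

/-- For every `ε > 0` there is a set `B` with at most `Z^(1-δ)` elements up to `Z` such that the diagonal
Moebius-twisted Elliott-Halberstam estimate, with every level `Q ≤ N^(1-ε)` and every power of the logarithm, holds
for all `N` in `(Z, 2Z]` outside `B` which are not divisible by any of at most `(log Z)^C` integers `r ≤ Z^ε`. These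
integers are larger than any given power of `log Z`, and at least `exp (c log Z / log log Z)` except possibly for some
divisors `r ≥ r₀ / (log Z)^C` of one integer `r₀`. (So for `N = p` or `N = 2p` the exceptional set is power-saving.) -/
theorem result {ε : ℝ} (hε : 0 < ε) : ∃ (δ : ℝ) (B : Set ℕ), 0 < δ ∧
    (∃ Z₀ : ℕ, ∀ Z : ℕ, Z₀ ≤ Z → (({N : ℕ | N ∈ B ∧ N ≤ Z}).ncard : ℝ) ≤ (Z : ℝ) ^ (1 - δ)) ∧
    ∀ A : ℕ, ∃ (C : ℕ) (c : ℝ), 0 < c ∧ ∀ A' : ℕ, ∃ Z₀ : ℕ, ∀ Z : ℕ, Z₀ ≤ Z →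
      ∃ (M : Finset ℕ) (r₀ : ℕ), 0 < r₀ ∧ (M.card : ℝ) ≤ Real.log Z ^ C ∧
        (∀ r ∈ M, Real.log Z ^ A' < r ∧ (r : ℝ) ≤ (Z : ℝ) ^ ε ∧
          (Real.exp (c * Real.log Z / Real.log (Real.log Z)) ≤ r ∨
            (r ∣ r₀ ∧ (r₀ : ℝ) ≤ r * Real.log Z ^ C))) ∧
        ∀ N : ℕ, Z < N → N ≤ 2 * Z → N ∉ B → (∀ r ∈ M, ¬ r ∣ N) → ∀ Q : ℝ,
          Q ≤ (N : ℝ) ^ (1 - ε) → D g1 N Q ≤ N / Real.log N ^ A ∧ D g2 N Q ≤ N / Real.log N ^ A :=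
  Pool.Agent.MVD.final hε

end Pool.Agent.Results.MP_e9eb55_nt.PowerSaving
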