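import Pool.Agent.SEH.FinB2

open Pool.Agent.DEH

namespace Pool.Agent.Results.MP_e9eb55_nt.ShiftedQuadratics

open Classical in
/-- The diagonal Moebius-twisted Elliott-Halberstam estimate, at all levels up to
`N exp (-(log N)^ε)`, for almost all members of the families `N = a k^2 + b k + c + w` with
`k ≤ √X`, `w ∈ W`, uniformly in the set of shifts `W` in `[0, X]`. -/
theorem result (a b c : ℤ) (ha : 0 < a) (δ ε : ℝ) (hδ : 0 < δ) (hε : 0 < ε) (A C : ℕ) :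
    ∃ B X₀ : ℕ, ∀ X : ℕ, X₀ ≤ X → ∀ W : Finset ℕ, W ⊆ Finset.range (X + 1) →
      ((X:ℝ) ^ δ ≤ W.card ∨ (Real.log X ^ B ≤ W.card ∧
        ∑ w ∈ W, ∑ v ∈ W.erase w, (((v:ℤ) - w).natAbs.divisors.card : ℝ) ^ 2 ≤
          (W.card : ℝ) ^ 3 * Real.log X ^ C)) →
      ((((Finset.range (Nat.sqrt X + 1)) ×ˢ W).filter (fun x : ℕ × ℕ => ¬ ∀ N : ℕ,
        (N:ℤ) = a * (x.1:ℤ) ^ 2 + b * x.1 + c + x.2 → ∀ Q : ℝ, Q ≤ N * Real.exp (-(Real.log N) ^ ε) →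
          D g1 N Q ≤ N / Real.log N ^ A ∧ D g2 N Q ≤ N / Real.log N ^ A)).card : ℝ) ≤
        W.card * √X / Real.log X ^ A :=
  Pool.Agent.SEH.En.finB2 ha hδ hε A C

end Pool.Agent.Results.MP_e9eb55_nt.ShiftedQuadratics
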