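import Pool.Agent.SEH.Fin2

open Pool.Agent.DEH

namespace Pool.Agent.Results.MP_e9eb55_nt.SmallEnergySets

open Classical in
/-- The diagonal Moebius-twisted Elliott-Halberstam estimate, at all levels up to
`N exp (-(log N)^ε)`, for almost all members of every set `S` in `(X, 2X]` with at least
`√X (log X)^B` elements and small additive energy. -/
theorem result (ε : ℝ) (hε : 0 < ε) (A C : ℕ) :
    ∃ B X₀ : ℕ, ∀ X : ℕ, X₀ ≤ X → ∀ S : Finset ℕ, S ⊆ Finset.Ioc X (2 * X) →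
      √X * Real.log X ^ B ≤ S.card →
      X * ∑ h ∈ Finset.Icc 1 X, (h.divisors.card : ℝ) ^ 2 * ((S.filter (fun n => n + h ∈ S)).card : ℝ) ^ 2 ≤
        (S.card : ℝ) ^ 4 * Real.log X ^ C →
      ((S.filter (fun N : ℕ => ¬ ∀ Q : ℝ, Q ≤ N * Real.exp (-(Real.log N) ^ ε) →
          D g1 N Q ≤ N / Real.log N ^ A ∧ D g2 N Q ≤ N / Real.log N ^ A)).card : ℝ) ≤
        S.card / Real.log X ^ A :=
  Pool.Agent.SEH.En.finC hε A C

end Pool.Agent.Results.MP_e9eb55_nt.SmallEnergySets
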